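import Pool.Agent.ER.UnitLinkage

/-!
# Unit linkage realizability in dimension at least three is `∃ℝ`-complete

Sketch of the hardness proof.  Satisfiability over `ℝ` of systems of constraints `x = 1`,
`x + y = z`, `x * y = z` is `∃ℝ`-hard; by the ball theorem the solutions can be supposed small
(`Pool.Agent.ER.Bounded`).  Fix `d ≥ 3` and put `D² = ℓ = 2 + 2/d`.

* Two bipyramids over regular simplices with `d` vertices, with a common apex and other apices at
  unit distance, force the distance `D` from unit distances; in the same way one gets the distance
  `D² = ℓ`.
* From these one gets *rods* `(p, m, q)`: `|m - p| = 1` and `q - p = ℓ (m - p)`.  Two rods whose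
  corresponding points are at unit distance are translates of each other, which gives rigid
  parallelograms `s - r = q - p`.
* With parallelograms one expresses that vectors are orthogonal, that `n' = 2 o - n`, an
  orthonormal frame `ε₀, …, ε_{d-1}`, the vectors `y ε₀` and `y ε₁` with the same `y`, the
  relation `y₁ + y₂ = y₃ + 1`, the relation `y₁ y₂ = y₃` and the constant `1 + 2/d`.

The gadgets are the entries of the table `Pool.Agent.NPC.ER.Link.tbl`.
-/

namespace Pool.Agent.Results.MP_f9087f_lc.UnitLinkageComplete

open Pool.Agent.NPC Pool.Agent.NPC.ER

/-- For every `d ≥ 3`, unit linkage realizability in `ℝ^d` is `∃ℝ`-complete. -/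
theorem result : ∀ d : ℕ, 3 ≤ d → ERComplete (UnitLinkageRealizability d) :=
  fun d hd => ⟨unitLinkage_mem d, unitLinkage_hard d hd⟩

end Pool.Agent.Results.MP_f9087f_lc.UnitLinkageComplete
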